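import Pool.Agent.Helper88.CG.Goals

/-!
MP_69be96_nt, packet CG-CG: the conclusion for real `x`.
-/

set_option autoImplicit false

open Finset Filter Topology

open scoped Classical

namespace Pool.Agent.Helper25.CG

open Pool.Agent.Helper88.CG

lemma half_log {y : ℝ} (hy : 4 ≤ y) : Real.log y / 2 ≤ Real.log (y / 2) := by
  have h1 : Real.log (y / 2) = Real.log y - Real.log 2 := Real.log_div (by linarith) (by norm_num)
  have h2 : Real.log 4 ≤ Real.log y := Real.log_le_log (by norm_num) hy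
  have h3 : Real.log 4 = 2 * Real.log 2 := by
    rw [show (4 : ℝ) = 2 ^ 2 by norm_num, Real.log_pow]
    norm_num
  linarith

lemma quarter_log {x : ℝ} (hx : 16 ≤ x) : Real.log x / 2 ≤ Real.log (x / 4) := by
  have h1 : Real.log (x / 4) = Real.log x - Real.log 4 := Real.log_div (by linarith) (by norm_num)
  have h2 : Real.log 16 ≤ Real.log x := Real.log_le_log (by norm_num) hx
  have h3 : Real.log 16 = 2 * Real.log 4 := by
    rw [show (16 : ℝ) = 4 ^ 2 by norm_num, Real.log_pow]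
    norm_num
  linarith

/-- Packet CG-CG. -/
theorem cg (h1 : StmtF1) (h2 : StmtF2) : StmtCG := by
  obtain ⟨c, hc, h⟩ := h1
  refine ⟨c / 4, by positivity, fun k hk => ?_⟩
  obtain ⟨x0, hx0⟩ := h k hk
  have ev1 : ∀ᶠ x : ℝ in atTop, ‖Real.log x ^ 2‖ ≤ 1 / 2 * ‖id x‖ :=
    (Real.isLittleO_pow_log_id_atTop (n := 2)).bound (by norm_num)
  have ev2 : ∀ᶠ x : ℝ in atTop, 4 ≤ Real.log x := Real.tendsto_log_atTop.eventually_ge_atTop 4
  obtain ⟨X, hX⟩ := eventually_atTop.mp (ev1.and ev2)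
  refine ⟨max X (max 16 (2 * x0 + 2)), fun x hx => ?_⟩
  obtain ⟨e1, e2⟩ := hX x (le_trans (le_max_left _ _) hx)
  have hx16 : 16 ≤ x := le_trans (le_trans (le_max_left _ _) (le_max_right _ _)) hx
  have hx0' : 2 * (x0 : ℝ) + 2 ≤ x := le_trans (le_trans (le_max_right _ _) (le_max_right _ _)) hx
  rw [id, Real.norm_eq_abs, Real.norm_eq_abs, abs_of_nonneg (by positivity : 0 ≤ Real.log x ^ 2),
    abs_of_nonneg (by linarith : 0 ≤ x)] at e1
  set y : ℕ := ⌊x / 2⌋₊ with hy
  have y1 : (y : ℝ) ≤ x / 2 := Nat.floor_le (by linarith)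
  have y2 : x / 2 < y + 1 := Nat.lt_floor_add_one _
  have y3 : x / 4 ≤ y := by linarith
  have y4 : x0 ≤ y := by
    have : (x0 : ℝ) ≤ y := by linarith
    exact_mod_cast this
  obtain ⟨n, M, U, l, a1, a2, a3, a4, a5, a6⟩ := hx0 y y4
  obtain ⟨s, b1, b2⟩ := h2 k n M U l hk a5 a6
  have ly1 : Real.log (x / 4) ≤ Real.log y := Real.log_le_log (by linarith) y3
  have ly2 : Real.log y ≤ Real.log x := Real.log_le_log (by linarith) (by linarith)
  have ly3 : Real.log x / 2 ≤ Real.log y := (quarter_log hx16).trans ly1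
  have ly4 : Real.log (Real.log x) / 2 ≤ Real.log (Real.log y) :=
    (half_log e2).trans (Real.log_le_log (by linarith) ly3)
  have ly5 : 0 ≤ Real.log (Real.log x) := Real.log_nonneg (by linarith)
  refine ⟨s, ?_, fun i hi => ?_⟩
  · have c1 : (Nat.nth Nat.Prime (s + k) : ℝ) ≤ n + ((M * (U + l) : ℕ) : ℝ) := by
      exact_mod_cast b1
    have c2 : (n : ℝ) ≤ y := by exact_mod_cast a3
    have c3 : Real.log y ^ 2 ≤ Real.log x ^ 2 := by
      apply pow_le_pow_left₀ _ ly2
      linarith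
    linarith
  · have c1 := b2 i hi
    have c2 : (Nat.nth Nat.Prime (s + i) : ℝ) + U + 1 ≤ Nat.nth Nat.Prime (s + i + 1) := by
      exact_mod_cast c1
    have c3 : Real.log x / 2 * (Real.log (Real.log x) / 2) ≤ Real.log y * Real.log (Real.log y) :=
      mul_le_mul ly3 ly4 (by linarith) (by linarith)
    have c4 : c / k ^ 2 * (Real.log x / 2 * (Real.log (Real.log x) / 2)) ≤
        c / k ^ 2 * (Real.log y * Real.log (Real.log y)) :=
      mul_le_mul_of_nonneg_left c3 (by positivity)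
    have c5 : c / 4 / k ^ 2 * (Real.log x * Real.log (Real.log x)) =
        c / k ^ 2 * (Real.log x / 2 * (Real.log (Real.log x) / 2)) := by ring
    rw [c5]
    linarith

end Pool.Agent.Helper25.CG
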