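import Pool.Agent.Helper88.CG.Goals

/-!
MP_69be96_nt, packet CG-T1: type I sums.
-/

set_option autoImplicit false

open Finset Filter Topology

open scoped Classical

namespace Pool.Agent.Helper25.CG

open Pool.Agent.Helper88.CG

/-! ### Abel summation -/

lemma abel (G δ : ℕ → ℝ) (n : ℕ) :
    ∑ d ∈ Icc 1 (n + 1), G d * δ d = G (n + 1) * (∑ d ∈ Icc 1 (n + 1), δ d) -
      ∑ i ∈ range n, (G (i + 2) - G (i + 1)) * (∑ d ∈ Icc 1 (i + 1), δ d) := by
  induction n with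
  | zero => simp
  | succ n ih =>
    rw [Finset.sum_Icc_succ_top (by omega), ih, Finset.sum_Icc_succ_top (by omega : 1 ≤ n + 1 + 1),
      sum_range_succ]
    ring

lemma abel_bound (G δ : ℕ → ℝ) {K : ℝ} (hD : ∀ N, |∑ d ∈ Icc 1 N, δ d| ≤ K) (n : ℕ) :
    |∑ d ∈ Icc 1 (n + 1), G d * δ d| ≤
      K * (|G (n + 1)| + ∑ i ∈ range n, |G (i + 2) - G (i + 1)|) := by
  rw [abel]
  refine (abs_sub _ _).trans ?_
  rw [mul_add, abs_mul, mul_comm K]
  refine add_le_add (mul_le_mul_of_nonneg_left (hD _) (abs_nonneg _)) ?_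
  rw [mul_sum]
  refine (abs_sum_le_sum_abs _ _).trans (sum_le_sum fun i _ => ?_)
  rw [abs_mul, mul_comm K]
  exact mul_le_mul_of_nonneg_left (hD _) (abs_nonneg _)

/-! ### The tent -/

/-- clamp to `[0,1]` -/
noncomputable def T (s : ℝ) : ℝ := max 0 (min 1 s)

lemma T_mono : Monotone T := fun _ _ h => max_le_max le_rfl (min_le_min le_rfl h)

lemma T_nonneg (s : ℝ) : 0 ≤ T s := le_max_left _ _

lemma T_le_one (s : ℝ) : T s ≤ 1 := max_le zero_le_one (min_le_left _ _)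

lemma tent (s : ℝ) : max 0 (1 - |s|) = T (s + 1) - T s := by
  unfold T
  rcases le_total s (-1) with h | h
  · rw [min_eq_right (by linarith : s + 1 ≤ 1), min_eq_right (by linarith : s ≤ 1),
      max_eq_left (by linarith : s + 1 ≤ 0), max_eq_left (by linarith : s ≤ 0),
      abs_of_nonpos (by linarith), max_eq_left (by linarith)]
    ring
  · rcases le_total s 0 with h' | h'
    · rw [min_eq_right (by linarith : s + 1 ≤ 1), min_eq_right (by linarith : s ≤ 1),
        max_eq_right (by linarith : 0 ≤ s + 1), max_eq_left (by linarith : s ≤ 0),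
        abs_of_nonpos (by linarith), max_eq_right (by linarith)]
      ring
    · rcases le_total s 1 with h1 | h1
      · rw [min_eq_left (by linarith : 1 ≤ s + 1), min_eq_right (by linarith : s ≤ 1),
          max_eq_right (by linarith : (0 : ℝ) ≤ 1), max_eq_right (by linarith : 0 ≤ s),
          abs_of_nonneg (by linarith), max_eq_right (by linarith)]
      · rw [min_eq_left (by linarith : 1 ≤ s + 1), min_eq_left (by linarith : 1 ≤ s),
          abs_of_nonneg (by linarith), max_eq_left (by linarith)]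
        ring

lemma log4_pos : 0 < Real.log 4 := Real.log_pos (by norm_num)

lemma tw_eq (x n : ℕ) : tw x n = T (Real.log (4 * n / x) / Real.log 4 + 1) -
    T (Real.log (4 * n / x) / Real.log 4) := by
  rw [← tent, abs_div, abs_of_pos log4_pos]
  rfl

lemma tw_nonneg (x n : ℕ) : 0 ≤ tw x n := le_max_left _ _

lemma tw_le_one (x n : ℕ) : tw x n ≤ 1 := by
  unfold tw
  refine max_le zero_le_one ?_
  have : 0 ≤ |Real.log (4 * n / x)| / Real.log 4 := div_nonneg (abs_nonneg _) log4_pos.le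
  linarith

lemma log_mono {x b : ℕ} (hx : 1 ≤ x) (hb : 1 ≤ b) (i : ℕ) :
    Real.log (4 * ((b * (i + 1) : ℕ) : ℝ) / x) / Real.log 4 ≤
      Real.log (4 * ((b * (i + 2) : ℕ) : ℝ) / x) / Real.log 4 := by
  have hx' : (0 : ℝ) < x := by exact_mod_cast hx
  have hb' : (0 : ℝ) < b := by exact_mod_cast hb
  refine div_le_div_of_nonneg_right (Real.log_le_log ?_ ?_) log4_pos.le
  · push_cast
    positivity
  · refine div_le_div_of_nonneg_right ?_ hx'.le
    push_cast
    nlinarith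

lemma var_tw {x b : ℕ} (hx : 1 ≤ x) (hb : 1 ≤ b) (n : ℕ) :
    ∑ i ∈ range n, |tw x (b * (i + 2)) - tw x (b * (i + 1))| ≤ 2 := by
  set L : ℕ → ℝ := fun i => Real.log (4 * ((b * (i + 1) : ℕ) : ℝ) / x) / Real.log 4 with hL
  have hm : ∀ i, L i ≤ L (i + 1) := fun i => log_mono hx hb i
  have e : ∀ i, tw x (b * (i + 1)) = T (L i + 1) - T (L i) := fun i => tw_eq x (b * (i + 1))
  have h1 : ∀ i, |tw x (b * (i + 2)) - tw x (b * (i + 1))| ≤
      (T (L (i + 1) + 1) - T (L i + 1)) + (T (L (i + 1)) - T (L i)) := by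
    intro i
    have e2 : tw x (b * (i + 2)) = T (L (i + 1) + 1) - T (L (i + 1)) := e (i + 1)
    rw [e2, e i]
    have a1 : T (L i + 1) ≤ T (L (i + 1) + 1) := T_mono (by linarith [hm i])
    have a2 : T (L i) ≤ T (L (i + 1)) := T_mono (hm i)
    rw [abs_le]
    constructor <;> linarith
  refine (sum_le_sum fun i _ => h1 i).trans ?_
  rw [sum_add_distrib, sum_range_sub (fun i => T (L i + 1)), sum_range_sub (fun i => T (L i))]
  have := T_le_one (L n + 1)
  have := T_le_one (L n)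
  have := T_nonneg (L 0 + 1)
  have := T_nonneg (L 0)
  linarith

lemma var_log {x b : ℕ} (hx : 1 ≤ x) (hb : 1 ≤ b) (n : ℕ) (hn : n + 1 ≤ x) :
    ∑ i ∈ range n, |Real.log ((i + 2 : ℕ) : ℝ) * tw x (b * (i + 2)) -
      Real.log ((i + 1 : ℕ) : ℝ) * tw x (b * (i + 1))| ≤ 3 * Real.log x := by
  have hlx : 0 ≤ Real.log x := Real.log_natCast_nonneg x
  have h1 : ∀ i ∈ range n, |Real.log ((i + 2 : ℕ) : ℝ) * tw x (b * (i + 2)) -
      Real.log ((i + 1 : ℕ) : ℝ) * tw x (b * (i + 1))| ≤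
      Real.log x * |tw x (b * (i + 2)) - tw x (b * (i + 1))| +
        (Real.log ((i + 1 + 1 : ℕ) : ℝ) - Real.log ((i + 1 : ℕ) : ℝ)) := by
    intro i hi
    rw [mem_range] at hi
    have a1 : Real.log ((i + 2 : ℕ) : ℝ) ≤ Real.log x :=
      Real.log_le_log (by positivity) (by exact_mod_cast (by omega : i + 2 ≤ x))
    have a2 : Real.log ((i + 1 : ℕ) : ℝ) ≤ Real.log ((i + 2 : ℕ) : ℝ) :=
      Real.log_le_log (by positivity) (by exact_mod_cast (by omega : i + 1 ≤ i + 2))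
    have a3 : 0 ≤ Real.log ((i + 2 : ℕ) : ℝ) := Real.log_natCast_nonneg _
    have e : Real.log ((i + 2 : ℕ) : ℝ) * tw x (b * (i + 2)) -
      Real.log ((i + 1 : ℕ) : ℝ) * tw x (b * (i + 1)) =
      Real.log ((i + 2 : ℕ) : ℝ) * (tw x (b * (i + 2)) - tw x (b * (i + 1))) +
      (Real.log ((i + 2 : ℕ) : ℝ) - Real.log ((i + 1 : ℕ) : ℝ)) * tw x (b * (i + 1)) := by ring
    rw [e]
    refine (abs_add_le _ _).trans (add_le_add ?_ ?_)
    · rw [abs_mul, abs_of_nonneg a3]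
      exact mul_le_mul_of_nonneg_right a1 (abs_nonneg _)
    · rw [abs_mul, abs_of_nonneg (by linarith), abs_of_nonneg (tw_nonneg _ _)]
      exact mul_le_of_le_one_right (by linarith) (tw_le_one _ _)
  refine (sum_le_sum h1).trans ?_
  rw [sum_add_distrib, ← mul_sum, sum_range_sub (fun i => Real.log ((i + 1 : ℕ) : ℝ))]
  have h2 := mul_le_mul_of_nonneg_left (var_tw hx hb n) hlx
  have h3 : Real.log ((n + 1 : ℕ) : ℝ) ≤ Real.log x :=
    Real.log_le_log (by positivity) (by exact_mod_cast hn)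
  have h4 : Real.log ((0 + 1 : ℕ) : ℝ) = 0 := by simp
  rw [h4]
  linarith

/-! ### The classes -/

lemma cnt (v N : ℕ) {r : ℕ} (hr : 0 < r) : ∃ s : ℝ, 0 ≤ s ∧ s ≤ 1 ∧
    ∑ d ∈ range N, (if d ≡ v [MOD r] then (1 : ℝ) else 0) = ((N / r : ℕ) : ℝ) + s := by
  rw [sum_boole, ← Nat.count_eq_card_filter_range, Nat.count_modEq_card _ hr]
  split_ifs
  · exact ⟨1, by norm_num, le_rfl, by push_cast; ring⟩
  · exact ⟨0, le_rfl, by norm_num, by push_cast; ring⟩

lemma dl_zero {k p a b : ℕ} (hp : p.Prime) (ha : Nat.Coprime a (k * p))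
    (hb : ¬ Nat.Coprime b (k * p)) (d : ℕ) : dl k p a (b * d) = 0 := by
  obtain ⟨r, hr, hrb, hrk⟩ := Nat.Prime.not_coprime_iff_dvd.mp hb
  have hna : ¬ r ∣ a := fun h => by
    have := Nat.dvd_gcd h hrk
    rw [ha] at this
    exact hr.one_lt.ne' (Nat.dvd_one.mp this)
  have h1 : ¬ b * d ≡ a [MOD k * p] := fun h => by
    have := (h.of_dvd hrk).dvd_iff (dvd_refl r)
    exact hna (this.mp (dvd_mul_of_dvd_left hrb d))
  have h2 : ¬ (b * d ≡ a [MOD k] ∧ ¬ p ∣ b * d) := by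
    rintro ⟨h, h'⟩
    rcases (Nat.Prime.dvd_mul hr).mp hrk with h3 | h3
    · have := (h.of_dvd h3).dvd_iff (dvd_refl r)
      exact hna (this.mp (dvd_mul_of_dvd_left hrb d))
    · have : r = p := (Nat.prime_dvd_prime_iff_eq hr hp).mp h3
      exact h' (this ▸ dvd_mul_of_dvd_left hrb d)
  unfold dl
  rw [if_neg h1, if_neg h2]
  simp

lemma dl_eq {k p a b : ℕ} (hk : 1 ≤ k) (hp : p.Prime) (hpk : ¬ p ∣ k)
    (hb : Nat.Coprime b (k * p)) :
    ∃ c c' : ℕ, ∀ d, dl k p a (b * d) = (if d ≡ c [MOD k * p] then 1 else 0) -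
      ((if d ≡ c [MOD k] then 1 else 0) - (if d ≡ c' [MOD k * p] then 1 else 0)) / ((p : ℝ) - 1) := by
  have hkp : Nat.Coprime k p := ((Nat.Prime.coprime_iff_not_dvd hp).mpr hpk).symm
  obtain ⟨b', hb'⟩ : ∃ b', b * b' ≡ 1 [MOD k * p] := by
    obtain ⟨m, -, hm⟩ := Nat.exists_mul_mod_eq_one_of_coprime hb
      (lt_of_lt_of_le hp.one_lt (Nat.le_mul_of_pos_left p hk))
    refine ⟨m, ?_⟩
    unfold Nat.ModEq
    rw [hm, Nat.mod_eq_of_lt (lt_of_lt_of_le hp.one_lt (Nat.le_mul_of_pos_left p hk))]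
  have hbc : b * (a * b') ≡ a [MOD k * p] := by
    have := hb'.mul_left a
    rw [mul_one] at this
    calc b * (a * b') = a * (b * b') := by ring
      _ ≡ a [MOD k * p] := this
  obtain ⟨c', hc1, hc2⟩ := Nat.chineseRemainder hkp (a * b') 0
  refine ⟨a * b', c', fun d => ?_⟩
  have e1 : b * d ≡ a [MOD k * p] ↔ d ≡ a * b' [MOD k * p] := by
    constructor
    · intro h
      exact Nat.ModEq.cancel_left_of_coprime (by rw [Nat.gcd_comm]; exact hb) (h.trans hbc.symm)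
    · intro h
      exact (h.mul_left b).trans hbc
  have hbk : Nat.Coprime b k := Nat.Coprime.coprime_mul_right_right hb
  have e2 : b * d ≡ a [MOD k] ↔ d ≡ a * b' [MOD k] := by
    have hbc' : b * (a * b') ≡ a [MOD k] := hbc.of_dvd (dvd_mul_right k p)
    constructor
    · intro h
      exact Nat.ModEq.cancel_left_of_coprime (by rw [Nat.gcd_comm]; exact hbk) (h.trans hbc'.symm)
    · intro h
      exact (h.mul_left b).trans hbc'
  have hbp : Nat.Coprime b p := Nat.Coprime.coprime_mul_left_right hb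
  have e3 : p ∣ b * d ↔ p ∣ d := by
    constructor
    · exact fun h => Nat.Coprime.dvd_of_dvd_mul_left hbp.symm h
    · exact fun h => dvd_mul_of_dvd_right h b
  have e4 : (d ≡ a * b' [MOD k] ∧ p ∣ d) ↔ d ≡ c' [MOD k * p] := by
    rw [← Nat.modEq_and_modEq_iff_modEq_mul hkp]
    constructor
    · rintro ⟨h1, h2⟩
      exact ⟨h1.trans hc1.symm, ((Nat.modEq_zero_iff_dvd.mpr h2).trans hc2.symm)⟩
    · rintro ⟨h1, h2⟩
      exact ⟨h1.trans hc1, Nat.modEq_zero_iff_dvd.mp (h2.trans hc2)⟩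
  unfold dl
  simp only [e1, e2, e3]
  congr 1
  congr 1
  by_cases h1 : d ≡ a * b' [MOD k]
  · by_cases h2 : p ∣ d
    · rw [if_neg (by tauto), if_pos h1, if_pos (e4.mp ⟨h1, h2⟩)]
      ring
    · rw [if_pos ⟨h1, h2⟩, if_pos h1, if_neg (fun h => h2 (e4.mpr h).2)]
      ring
  · rw [if_neg (by tauto), if_neg h1, if_neg (fun h => h1 (e4.mpr h).1)]
    ring

lemma partial_sum {k p a b : ℕ} (hk : 1 ≤ k) (hp : p.Prime) (hpk : ¬ p ∣ k)
    (ha : Nat.Coprime a (k * p)) (N : ℕ) : |∑ d ∈ Icc 1 N, dl k p a (b * d)| ≤ 3 := by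
  by_cases hb : Nat.Coprime b (k * p)
  swap
  · rw [sum_eq_zero fun d _ => dl_zero hp ha hb d]
    norm_num
  have hp2 : (2 : ℝ) ≤ p := by exact_mod_cast hp.two_le
  have hq : 0 < k * p := Nat.mul_pos hk hp.pos
  have h0 : dl k p a (b * 0) = 0 := by
    have h1 : ¬ b * 0 ≡ a [MOD k * p] := by
      rw [mul_zero]
      intro h
      have h3 : k * p ∣ a := Nat.modEq_zero_iff_dvd.mp h.symm
      have h4 := Nat.dvd_gcd h3 (dvd_refl (k * p))
      rw [ha] at h4
      have h5 := Nat.dvd_one.mp h4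
      have := Nat.le_mul_of_pos_left p hk
      have := hp.two_le
      omega
    unfold dl
    rw [if_neg h1, if_neg (by simp)]
    simp
  have hr : ∑ d ∈ Icc 1 N, dl k p a (b * d) = ∑ d ∈ range (N + 1), dl k p a (b * d) := by
    rw [Finset.sum_range_succ', h0, add_zero, Finset.range_eq_Ico,
      Finset.sum_Ico_add' (fun d => dl k p a (b * d)) 0 N 1]
    rfl
  rw [hr]
  obtain ⟨c, c', h⟩ := dl_eq (a := a) hk hp hpk hb
  simp only [h]
  obtain ⟨s1, u1, u2, t1⟩ := cnt c (N + 1) hq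
  obtain ⟨s2, v1, v2, t2⟩ := cnt c (N + 1) (show 0 < k from hk)
  obtain ⟨s3, w1, w2, t3⟩ := cnt c' (N + 1) hq
  rw [sum_sub_distrib, ← sum_div, sum_sub_distrib, t1, t2, t3]
  clear t1 t2 t3
  generalize N + 1 = M
  have e1 : ((M / k : ℕ) : ℝ) = p * ((M / (k * p) : ℕ) : ℝ) + ((M / k % p : ℕ) : ℝ) := by
    rw [← Nat.div_div_eq_div_mul]
    exact_mod_cast (Nat.div_add_mod (M / k) p).symm
  have e2 : ((M / k % p : ℕ) : ℝ) ≤ p - 1 := by
    have h1 : M / k % p + 1 ≤ p := Nat.mod_lt _ hp.pos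
    have : ((M / k % p : ℕ) : ℝ) + 1 ≤ p := by exact_mod_cast h1
    linarith
  have e3 : (0 : ℝ) ≤ ((M / k % p : ℕ) : ℝ) := Nat.cast_nonneg _
  rw [e1]
  generalize ((M / k % p : ℕ) : ℝ) = r at e2 e3 ⊢
  generalize ((M / (k * p) : ℕ) : ℝ) = m
  have hpp : (0 : ℝ) < p - 1 := by linarith
  have e5 : m + s1 - (p * m + r + s2 - (m + s3)) / ((p : ℝ) - 1) =
      s1 - (r + s2 - s3) / ((p : ℝ) - 1) := by
    field_simp
    ring
  rw [e5]
  have h7 : (r + s2 - s3) / ((p : ℝ) - 1) ≤ 2 := by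
    rw [div_le_iff₀ hpp]
    linarith
  have h8 : -1 ≤ (r + s2 - s3) / ((p : ℝ) - 1) := by
    rw [le_div_iff₀ hpp]
    linarith
  rw [abs_le]
  constructor <;> linarith

/-- Packet CG-T1. -/
theorem t1 : StmtT1 := by
  refine ⟨12, by norm_num, fun x k p b a hx hk hp hpk hb ha => ?_⟩
  have hD := partial_sum (b := b) hk hp hpk ha
  obtain ⟨n, rfl⟩ : ∃ n, x = n + 1 := ⟨x - 1, by omega⟩
  have hlx : 0 ≤ Real.log ((n + 1 : ℕ) : ℝ) := Real.log_natCast_nonneg _
  constructor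
  · refine (abel_bound (fun d => tw (n + 1) (b * d)) (fun d => dl k p a (b * d)) hD n).trans ?_
    have h1 := var_tw (x := n + 1) (b := b) (by omega) hb n
    have h2 := tw_le_one (n + 1) (b * (n + 1))
    have h3 := tw_nonneg (n + 1) (b * (n + 1))
    rw [abs_of_nonneg h3]
    linarith
  · have e : ∀ d : ℕ, Real.log d * (tw (n + 1) (b * d) * dl k p a (b * d)) =
        (Real.log d * tw (n + 1) (b * d)) * dl k p a (b * d) := fun d => by ring
    simp only [e]
    refine (abel_bound (fun d : ℕ => Real.log d * tw (n + 1) (b * d))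
      (fun d => dl k p a (b * d)) hD n).trans ?_
    have h1 := var_log (x := n + 1) (b := b) (by omega) hb n le_rfl
    have h2 := tw_le_one (n + 1) (b * (n + 1))
    have h3 := tw_nonneg (n + 1) (b * (n + 1))
    rw [abs_of_nonneg (mul_nonneg hlx h3)]
    have h4 : Real.log ((n + 1 : ℕ) : ℝ) * tw (n + 1) (b * (n + 1)) ≤
        Real.log ((n + 1 : ℕ) : ℝ) := mul_le_of_le_one_right hlx h2
    linarith

end Pool.Agent.Helper25.CG
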